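import Pool.Agent.Helper89_Snark.Final

/-!
# A cyclically 6-edge-connected rotation `T_6`-snark

There is a rotation `T_6`-snark (on 190 vertices) that is cyclically 6-edge-connected. So the
answer to the question whether for some `i ≥ 2` there is a rotation `T_i`-snark that is cyclically
`k`-edge-connected for some `k ≥ 6` is yes.

The graph is a superposition of the Petersen graph: the six edges of a 6-cycle are replaced by
copies of the flower snark `J_5` minus two vertices, and the six vertices of this 6-cycle by
trees and paths on 13 vertices; the four other vertices of the Petersen graph stay.
-/

namespace Pool.Agent.Results.MP_98514b_co.RotationT6SnarkCyclic6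

open Pool.Agent.Helper89_Snark

theorem result : ∃ G : SimpleGraph (Fin 190), IsRotationSnark G 6 ∧ CyclicallyEdgeConnected G 6 :=
  ⟨G, G_rotation, G_cyclic⟩

end Pool.Agent.Results.MP_98514b_co.RotationT6SnarkCyclic6
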